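import Pool.Agent.H7.IA.Stmts

/-!
# Row MOD of the board `ia`: cliques after changing a few edges
-/

set_option autoImplicit false

open Finset

namespace Pool.IA7

open Pool.Agent.H23.KT Pool.Agent.H46.KW Pool.KQ Pool.GT7 Pool.GU7 Pool.HZ7

private theorem mod_mem_non {V : Type} {G : SimpleGraph V} {X : Finset V} {u y : V} :
    y ∈ non G X u ↔ y ∈ X ∧ ¬ G.Adj u y := by
  classical
  unfold non
  rw [mem_filter]

private theorem mod_nb_non {V : Type} {G : SimpleGraph V} (X : Finset V) (u : V) :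
    (nb G X u).card + (non G X u).card = X.card := by
  classical
  unfold nb non
  exact card_filter_add_card_filter_not _

private theorem mod_kc_congr {V : Type} {H H' : SimpleGraph V} {W : Finset V}
    (h : ∀ x ∈ W, ∀ y ∈ W, x ≠ y → (H'.Adj x y ↔ H.Adj x y)) (j : ℕ) :
    kc H' W j = kc H W j := by
  classical
  unfold kc
  congr 1
  apply filter_congr
  intro S hS
  rw [mem_powersetCard] at hS
  constructor
  · intro hc x hx y hy hxy
    exact (h x (hS.1 (mem_coe.1 hx)) y (hS.1 (mem_coe.1 hy)) hxy).1 (hc hx hy hxy)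
  · intro hc x hx y hy hxy
    exact (h x (hS.1 (mem_coe.1 hx)) y (hS.1 (mem_coe.1 hy)) hxy).2 (hc hx hy hxy)

/-- Adding one edge. -/
private theorem mod_one {V : Type} [DecidableEq V] {H H' : SimpleGraph V} {U : Finset V} {u v : V}
    (hu : u ∈ U) (hv : v ∈ U) (h1 : H'.Adj u v) (h0 : ¬ H.Adj u v)
    (hag : ∀ x y, s(x, y) ≠ s(u, v) → (H'.Adj x y ↔ H.Adj x y)) (j : ℕ) :
    kc H' U (j + 2) = kc H U (j + 2) + kc H (nb H (nb H U u) v) j := by
  have hne : u ≠ v := h1.ne
  have hnu : ∀ x y, x ≠ u → y ≠ u → s(x, y) ≠ s(u, v) := by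
    intro x y hx hy h
    rw [Sym2.eq_iff] at h
    rcases h with ⟨h, _⟩ | ⟨_, h⟩
    · exact hx h
    · exact hy h
  have hnv : ∀ y, y ≠ v → s(u, y) ≠ s(u, v) := by
    intro y hy h
    rw [Sym2.eq_iff] at h
    rcases h with ⟨_, h⟩ | ⟨h, _⟩
    · exact hy h
    · exact hne h
  have a1 := kc_succ H' hu (j + 1)
  have hvN : v ∈ nb H' U u := (mem_nb H').2 ⟨hv, h1⟩
  have a2 := kc_succ H' hvN j
  have b1 := kc_succ H hu (j + 1)
  have e1 : (nb H' U u).erase v = nb H U u := by
    ext y
    rw [mem_erase, mem_nb, mem_nb]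
    constructor
    · rintro ⟨hy, hyU, hadj⟩
      exact ⟨hyU, (hag u y (hnv y hy)).1 hadj⟩
    · rintro ⟨hyU, hadj⟩
      have hy : y ≠ v := by
        rintro rfl
        exact h0 hadj
      exact ⟨hy, hyU, (hag u y (hnv y hy)).2 hadj⟩
  have e2 : nb H' (nb H' U u) v = nb H (nb H U u) v := by
    ext y
    rw [mem_nb, mem_nb, mem_nb, mem_nb]
    constructor
    · rintro ⟨⟨hyU, ha⟩, hb⟩
      have hyv : y ≠ v := hb.ne'
      have hyu : y ≠ u := ha.ne'
      exact ⟨⟨hyU, (hag u y (hnv y hyv)).1 ha⟩, (hag v y (hnu v y (Ne.symm hne) hyu)).1 hb⟩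
    · rintro ⟨⟨hyU, ha⟩, hb⟩
      have hyv : y ≠ v := hb.ne'
      have hyu : y ≠ u := ha.ne'
      exact ⟨⟨hyU, (hag u y (hnv y hyv)).2 ha⟩, (hag v y (hnu v y (Ne.symm hne) hyu)).2 hb⟩
  have c1 : kc H' (U.erase u) (j + 1 + 1) = kc H (U.erase u) (j + 1 + 1) := by
    apply mod_kc_congr
    intro x hx y hy _
    exact hag x y (hnu x y (ne_of_mem_erase hx) (ne_of_mem_erase hy))
  have c2 : kc H' (nb H U u) (j + 1) = kc H (nb H U u) (j + 1) := by
    apply mod_kc_congr
    intro x hx y hy _
    exact hag x y (hnu x y ((mem_nb H).1 hx).2.ne' ((mem_nb H).1 hy).2.ne')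
  have c3 : kc H' (nb H (nb H U u) v) j = kc H (nb H (nb H U u) v) j := by
    apply mod_kc_congr
    intro x hx y hy _
    exact hag x y (hnu x y ((mem_nb H).1 ((mem_nb H).1 hx).1).2.ne'
      ((mem_nb H).1 ((mem_nb H).1 hy).1).2.ne')
  rw [e1, e2, c2, c3] at a2
  rw [a2, c1] at a1
  have a3 : kc H' U (j + 2) = kc H' U (j + 1 + 1) := rfl
  have b3 : kc H U (j + 2) = kc H U (j + 1 + 1) := rfl
  rw [a3, b3, a1, b1]
  omega

/-- Upper bound for the number of cliques in a union of independent sets. -/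
private theorem mod_upper {V : Type} [DecidableEq V] {b : ℕ} (H : SimpleGraph V)
    (X : Fin b → Finset V) (M : ℕ) (hind : ∀ i, ∀ u ∈ X i, ∀ w ∈ X i, ¬ H.Adj u w)
    (hM : ∀ i, (X i).card ≤ M) (I : Finset (Fin b)) :
    ∀ s : ℕ, kc H (I.biUnion X) s ≤ I.card.choose s * M ^ s := by
  induction I using Finset.induction_on with
  | empty =>
    intro s
    rcases s with _ | s
    · rw [kc_zero]
      simp
    · rw [biUnion_empty, kc_eq_zero H (by simp)]
      exact Nat.zero_le _
  | insert j I hj ih =>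
    intro s
    rcases s with _ | s
    · rw [kc_zero]
      simp
    · rw [biUnion_insert, card_insert_of_notMem hj, Nat.choose_succ_succ]
      have q1 := kc_le_sum (G := H) (X j ∪ I.biUnion X) s (X j) subset_union_left
      have q2 : ∀ u ∈ X j, kc H (nb H (X j ∪ I.biUnion X) u) s ≤ I.card.choose s * M ^ s := by
        intro u hu
        refine le_trans (kc_mono H ?_ s) (ih s)
        intro y hy
        rw [mem_nb, mem_union] at hy
        rcases hy.1 with h | h
        · exact absurd hy.2 (hind j u hu y h)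
        · exact h
      have q3 : kc H ((X j ∪ I.biUnion X) \ X j) (s + 1) ≤ I.card.choose (s + 1) * M ^ (s + 1) := by
        refine le_trans (kc_mono H ?_ (s + 1)) (ih (s + 1))
        intro y hy
        rw [mem_sdiff, mem_union] at hy
        exact hy.1.resolve_left hy.2
      have q4 := sum_le_sum q2
      rw [sum_const, smul_eq_mul] at q4
      have q5 : (X j).card * (I.card.choose s * M ^ s) ≤ M * (I.card.choose s * M ^ s) :=
        Nat.mul_le_mul_right _ (hM j)
      calc kc H (X j ∪ I.biUnion X) (s + 1) ≤ M * (I.card.choose s * M ^ s) +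
            I.card.choose (s + 1) * M ^ (s + 1) := by omega
        _ = (I.card.choose s + I.card.choose (s + 1)) * M ^ (s + 1) := by ring

/-- Adding a set of vertices. -/
private theorem mod_add {V : Type} [DecidableEq V] (H : SimpleGraph V) (W : Finset V) (s : ℕ)
    (X : Finset V) : Disjoint X W →
    kc H W (s + 1) + ∑ u ∈ X, kc H (nb H W u) s ≤ kc H (X ∪ W) (s + 1) := by
  induction X using Finset.induction_on with
  | empty =>
    intro _
    simp
  | insert u X hu ih =>
    intro hd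
    rw [disjoint_insert_left] at hd
    have h1 := ih hd.2
    have h2 : u ∉ X ∪ W := by
      rw [mem_union, not_or]
      exact ⟨hu, hd.1⟩
    have h3 := kc_succ H (mem_insert_self u (X ∪ W)) s
    rw [erase_insert h2] at h3
    have h4 : kc H (nb H W u) s ≤ kc H (nb H (insert u (X ∪ W)) u) s := by
      apply kc_mono
      intro y hy
      rw [mem_nb] at hy ⊢
      exact ⟨mem_insert_of_mem (mem_union_right _ hy.1), hy.2⟩
    rw [sum_insert hu, insert_union, h3]
    omega

/-- Lower bound for the number of cliques in a nearly complete multipartite graph. -/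
private theorem mod_lower {V : Type} [DecidableEq V] {b : ℕ} (H : SimpleGraph V) (K₂ : ℕ)
    (I : Finset (Fin b)) :
    ∀ (X : Fin b → Finset V) (L s : ℕ), (∀ i j, i ≠ j → Disjoint (X i) (X j)) →
      (∀ i ∈ I, L ≤ (X i).card) →
      (∀ i ∈ I, ∀ u ∈ X i, ∀ k ∈ I, k ≠ i → (non H (X k) u).card ≤ K₂) →
      I.card.choose s * (L - s * K₂) ^ s ≤ kc H (I.biUnion X) s := by
  induction I using Finset.induction_on with
  | empty =>
    intro X L s _ _ _
    rcases s with _ | s
    · rw [kc_zero]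
      simp
    · simp
  | insert j I hj ih =>
    intro X L s hdis hL hK
    rcases s with _ | s
    · rw [kc_zero]
      simp
    · rw [biUnion_insert, card_insert_of_notMem hj, Nat.choose_succ_succ]
      have hd : Disjoint (X j) (I.biUnion X) := by
        rw [disjoint_biUnion_right]
        intro i hi
        apply hdis
        rintro rfl
        exact hj hi
      have q1 := mod_add H (I.biUnion X) s (X j) hd
      have q2 := ih X L (s + 1) hdis (fun i hi => hL i (mem_insert_of_mem hi))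
        (fun i hi u hu k hk hki => hK i (mem_insert_of_mem hi) u hu k (mem_insert_of_mem hk) hki)
      have q3 : ∀ u ∈ X j, I.card.choose s * (L - (s + 1) * K₂) ^ s ≤
          kc H (nb H (I.biUnion X) u) s := by
        intro u hu
        have r1 := ih (fun i => nb H (X i) u) (L - K₂) s (by
          intro i k hik
          exact (hdis i k hik).mono (nb_subset H _ u) (nb_subset H _ u)) (by
          intro i hi
          have r2 := mod_nb_non (G := H) (X i) u
          have r3 := hK j (mem_insert_self _ _) u hu i (mem_insert_of_mem hi) (by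
            rintro rfl
            exact hj hi)
          have r4 := hL i (mem_insert_of_mem hi)
          show L - K₂ ≤ (nb H (X i) u).card
          omega) (by
          intro i hi x hx k hk hki
          refine le_trans (card_le_card ?_) (hK i (mem_insert_of_mem hi) x
            (nb_subset H _ u hx) k (mem_insert_of_mem hk) hki)
          intro y hy
          rw [mod_mem_non] at hy ⊢
          exact ⟨nb_subset H _ u hy.1, hy.2⟩)
        have r5 : L - (s + 1) * K₂ = L - K₂ - s * K₂ := by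
          rw [Nat.sub_sub]
          congr 1
          ring
        rw [r5]
        refine le_trans r1 (kc_mono H ?_ s)
        intro y hy
        rw [mem_biUnion] at hy
        obtain ⟨i, hi, hyi⟩ := hy
        rw [mem_nb] at hyi ⊢
        exact ⟨mem_biUnion.2 ⟨i, hi, hyi.1⟩, hyi.2⟩
      have q4 := sum_le_sum q3
      rw [sum_const, smul_eq_mul] at q4
      have q5 : (L - (s + 1) * K₂) * (I.card.choose s * (L - (s + 1) * K₂) ^ s) ≤
          (X j).card * (I.card.choose s * (L - (s + 1) * K₂) ^ s) := by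
        apply Nat.mul_le_mul_right
        have := hL j (mem_insert_self _ _)
        omega
      have q6 : (L - (s + 1) * K₂) * (I.card.choose s * (L - (s + 1) * K₂) ^ s) =
          I.card.choose s * (L - (s + 1) * K₂) ^ (s + 1) := by ring
      calc (I.card.choose s + I.card.choose (s + 1)) * (L - (s + 1) * K₂) ^ (s + 1)
          = I.card.choose s * (L - (s + 1) * K₂) ^ (s + 1) +
            I.card.choose (s + 1) * (L - (s + 1) * K₂) ^ (s + 1) := by ring
        _ ≤ _ := by omega

private theorem mod_md_adj {V : Type} {G : SimpleGraph V} {EA EB : Finset (Sym2 V)} {x y : V} :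
    (md G EA EB).Adj x y ↔ (G.Adj x y ∨ s(x, y) ∈ EA) ∧ s(x, y) ∉ EB ∧ x ≠ y := by
  unfold md
  rw [SimpleGraph.fromEdgeSet_adj]
  simp only [Set.mem_diff, Set.mem_union, SimpleGraph.mem_edgeSet, mem_coe]
  tauto

/-- The pairs between two different parts. -/
private def mod_pr {V : Type} {b : ℕ} (Q : Fin b → Finset V) (x : Sym2 V) : Prop :=
  ∃ i j u v, i ≠ j ∧ u ∈ Q i ∧ v ∈ Q j ∧ x = s(u, v)

private theorem mod_pr_other {V : Type} [DecidableEq V] {b : ℕ} {Q : Fin b → Finset V}
    (hd : ∀ i j, i ≠ j → Disjoint (Q i) (Q j)) {u v : V} (h : mod_pr Q s(u, v)) :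
    u ∈ un Q ∧ v ∈ un Q ∧ u ≠ v ∧ ∀ i, u ∈ Q i → v ∉ Q i := by
  obtain ⟨i, j, x, y, hij, hx, hy, he⟩ := h
  have hu : ∀ i x, x ∈ Q i → x ∈ un Q := fun i x hx => by
    unfold un
    exact mem_biUnion.2 ⟨i, mem_univ _, hx⟩
  have key : ∀ k, x ∈ Q k → y ∉ Q k := by
    intro k hxk hyk
    have k1 : k = i := by
      by_contra hne
      exact Finset.disjoint_left.1 (hd k i hne) hxk hx
    have k2 : k = j := by
      by_contra hne
      exact Finset.disjoint_left.1 (hd k j hne) hyk hy
    exact hij (k1.symm.trans k2)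
  have hxy : x ≠ y := by
    rintro rfl
    exact key i hx hx
  rw [Sym2.eq_iff] at he
  rcases he with ⟨rfl, rfl⟩ | ⟨rfl, rfl⟩
  · exact ⟨hu i _ hx, hu j _ hy, hxy, key⟩
  · exact ⟨hu j _ hy, hu i _ hx, hxy.symm, fun k h1 h2 => key k h2 h1⟩

private theorem mod_dgE {V : Type} [DecidableEq V] {b : ℕ} {Q : Fin b → Finset V}
    (hd : ∀ i j, i ≠ j → Disjoint (Q i) (Q j)) (E : Finset (Sym2 V))
    (hE : ∀ x ∈ E, mod_pr Q x) (u : V) :
    ((un Q).filter (fun v => s(u, v) ∈ E)).card = dgE E u := by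
  have h0 : dgE E u = (E.filter (fun x => u ∈ x)).card := by
    unfold dgE
    congr
  rw [h0]
  refine card_bij (fun v _ => s(u, v)) ?_ ?_ ?_
  · intro v hv
    rw [mem_filter] at hv ⊢
    exact ⟨hv.2, Sym2.mem_mk_left _ _⟩
  · intro v _ v' _ h
    exact Sym2.congr_right.1 h
  · intro x hx
    rw [mem_filter] at hx
    obtain ⟨hxE, hux⟩ := hx
    obtain ⟨v, rfl⟩ := Sym2.mem_iff_exists.1 hux
    exact ⟨v, mem_filter.2 ⟨(mod_pr_other hd (hE _ hxE)).2.1, hxE⟩, rfl⟩

private theorem mod_few {V : Type} [DecidableEq V] (E : Finset (Sym2 V)) (X : Finset V) (u : V) :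
    (X.filter (fun v => s(u, v) ∈ E)).card ≤ E.card := by
  refine card_le_card_of_injOn (fun v => s(u, v)) ?_ ?_
  · intro v hv
    exact mem_coe.2 (mem_filter.1 (mem_coe.1 hv)).2
  · intro v _ v' _ h
    exact Sym2.congr_right.1 h

/-- common neighbours, upper bound -/
private theorem mod_cn_upper {V : Type} [DecidableEq V] {p w M : ℕ} {H : SimpleGraph V}
    {Q : Fin (p + 4) → Finset V} (hP : Par H Q) (hM : ∀ j, (Q j).card ≤ M) {i j : Fin (p + 4)}
    (hij : i ≠ j) {u v : V} (hu : u ∈ Q i) (hv : v ∈ Q j) :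
    kc H (nb H (nb H (un Q) u) v) (w + 1) ≤ (p + 2).choose (w + 1) * M ^ (w + 1) := by
  have h1 := mod_upper H Q M hP.ind hM ((univ.erase i).erase j) (w + 1)
  have h2 : ((univ.erase i).erase j : Finset (Fin (p + 4))).card = p + 2 := by
    rw [card_erase_of_mem (mem_erase.2 ⟨hij.symm, mem_univ _⟩), card_erase_of_mem (mem_univ _),
      card_univ, Fintype.card_fin]
    omega
  rw [h2] at h1
  refine le_trans (kc_mono H ?_ (w + 1)) h1
  intro y hy
  rw [mem_nb, mem_nb] at hy
  obtain ⟨⟨hyU, hyu⟩, hyv⟩ := hy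
  unfold un at hyU
  obtain ⟨k, _, hk⟩ := mem_biUnion.1 hyU
  refine mem_biUnion.2 ⟨k, mem_erase.2 ⟨?_, mem_erase.2 ⟨?_, mem_univ _⟩⟩, hk⟩
  · rintro rfl
    exact hP.ind _ v hv y hk hyv
  · rintro rfl
    exact hP.ind _ u hu y hk hyu

/-- common neighbours, lower bound -/
private theorem mod_cn_lower {V : Type} [DecidableEq V] {p w L K₂ : ℕ} {H : SimpleGraph V}
    {Q : Fin (p + 4) → Finset V} (hP : Par H Q) (hL : ∀ j, L ≤ (Q j).card)
    (hK : ∀ j, ∀ u ∈ Q j, ∀ k, k ≠ j → (non H (Q k) u).card ≤ K₂) {i j : Fin (p + 4)}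
    (hij : i ≠ j) {u v : V} (hu : u ∈ Q i) (hv : v ∈ Q j) :
    (p + 2).choose (w + 1) * (L - (w + 3) * K₂) ^ (w + 1) ≤
      kc H (nb H (nb H (un Q) u) v) (w + 1) := by
  have h1 := mod_lower H K₂ ((univ.erase i).erase j) (fun k => nb H (nb H (Q k) u) v)
    (L - 2 * K₂) (w + 1) (by
      intro k l hkl
      exact (hP.dis k l hkl).mono ((nb_subset H _ v).trans (nb_subset H _ u))
        ((nb_subset H _ v).trans (nb_subset H _ u))) (by
      intro k hk
      rw [mem_erase, mem_erase] at hk
      have r1 := mod_nb_non (G := H) (Q k) u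
      have r2 := mod_nb_non (G := H) (nb H (Q k) u) v
      have r3 := hK i u hu k hk.2.1
      have r4 := hK j v hv k hk.1
      have r5 : (non H (nb H (Q k) u) v).card ≤ (non H (Q k) v).card := by
        apply card_le_card
        intro y hy
        rw [mod_mem_non] at hy ⊢
        exact ⟨nb_subset H _ u hy.1, hy.2⟩
      have r6 := hL k
      show L - 2 * K₂ ≤ (nb H (nb H (Q k) u) v).card
      omega) (by
      intro k hk x hx l hl hlk
      refine le_trans (card_le_card ?_) (hK k x (nb_subset H _ u (nb_subset H _ v hx)) l hlk)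
      intro y hy
      rw [mod_mem_non] at hy ⊢
      exact ⟨nb_subset H _ u (nb_subset H _ v hy.1), hy.2⟩)
  have h2 : ((univ.erase i).erase j : Finset (Fin (p + 4))).card = p + 2 := by
    rw [card_erase_of_mem (mem_erase.2 ⟨hij.symm, mem_univ _⟩), card_erase_of_mem (mem_univ _),
      card_univ, Fintype.card_fin]
    omega
  have h3 : L - (w + 3) * K₂ = L - 2 * K₂ - (w + 1) * K₂ := by
    rw [Nat.sub_sub]
    congr 1
    ring
  rw [h3]
  rw [h2] at h1
  refine le_trans h1 (kc_mono H ?_ (w + 1))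
  intro y hy
  obtain ⟨k, _, hk⟩ := mem_biUnion.1 hy
  rw [mem_nb, mem_nb] at hk ⊢
  refine ⟨⟨?_, hk.1.2⟩, hk.2⟩
  unfold un
  exact mem_biUnion.2 ⟨k, mem_univ _, hk.1.1⟩

private theorem mod_num (w e K K₃ : ℕ) (a : ℝ) (he : e ≤ 4) (hK : K ≤ K₃)
    (ha : 19 * ((w : ℝ) + 1) * K₃ + 1 ≤ a) :
    e * (a + K) ^ (w + 1) + 1 / 2 * a ^ (w + 1) ≤ (e + 1) * (a - K₃) ^ (w + 1) := by
  have hK3 : (0 : ℝ) ≤ K₃ := Nat.cast_nonneg _
  have hw0 : (0 : ℝ) ≤ w := Nat.cast_nonneg _
  have ha1 : 1 ≤ a := by nlinarith [mul_nonneg (by linarith : (0 : ℝ) ≤ 19 * ((w : ℝ) + 1)) hK3]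
  have ha0 : 0 < a := by linarith
  have hKR : (K : ℝ) ≤ K₃ := by exact_mod_cast hK
  have heR : (e : ℝ) ≤ 4 := by exact_mod_cast he
  have he0 : (0 : ℝ) ≤ e := Nat.cast_nonneg _
  obtain ⟨x, hx⟩ : ∃ x : ℝ, x = K₃ / a := ⟨_, rfl⟩
  have hx0 : 0 ≤ x := by
    rw [hx]
    positivity
  have hxa : x * a = K₃ := by
    rw [hx]
    field_simp
  have hx1 : ((w : ℝ) + 1) * x ≤ 1 / 19 := by
    rw [hx, mul_div_assoc', div_le_iff₀ ha0]
    linarith
  have hx2 : x ≤ 1 / 19 := by nlinarith [mul_nonneg hw0 hx0]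
  -- Bernoulli
  have b1 : 1 - ((w : ℝ) + 1) * x ≤ (1 - x) ^ (w + 1) := by
    have := one_add_mul_le_pow (show (-2 : ℝ) ≤ -x by linarith) (w + 1)
    push_cast at this
    calc 1 - ((w : ℝ) + 1) * x = 1 + ((w : ℝ) + 1) * (-x) := by ring
      _ ≤ (1 + -x) ^ (w + 1) := this
      _ = (1 - x) ^ (w + 1) := by rw [← sub_eq_add_neg]
  have b2 : 18 / 19 ≤ (1 - x) ^ (w + 1) := by linarith
  have b3 : (1 + x) ^ (w + 1) * (1 - x) ^ (w + 1) ≤ 1 := by
    rw [← mul_pow]
    apply pow_le_one₀
    · nlinarith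
    · nlinarith
  have b4 : (1 + x) ^ (w + 1) ≤ 19 / 18 := by
    have b5 : 0 ≤ (1 + x) ^ (w + 1) := by positivity
    nlinarith
  have c1 : (a + K) ^ (w + 1) ≤ (1 + x) ^ (w + 1) * a ^ (w + 1) := by
    rw [← mul_pow]
    apply pow_le_pow_left₀
    · positivity
    · nlinarith
  have c2 : (a - K₃) ^ (w + 1) = (1 - x) ^ (w + 1) * a ^ (w + 1) := by
    rw [← mul_pow]
    congr 1
    nlinarith
  have c3 : 0 < a ^ (w + 1) := by positivity
  have c4 : (a + K) ^ (w + 1) ≤ 19 / 18 * a ^ (w + 1) :=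
    le_trans c1 (mul_le_mul_of_nonneg_right b4 c3.le)
  have c5 : 18 / 19 * a ^ (w + 1) ≤ (a - K₃) ^ (w + 1) := by
    rw [c2]
    exact mul_le_mul_of_nonneg_right b2 c3.le
  have c6 : (e : ℝ) * (a + K) ^ (w + 1) ≤ e * (19 / 18 * a ^ (w + 1)) :=
    mul_le_mul_of_nonneg_left c4 he0
  have c7 : ((e : ℝ) + 1) * (18 / 19 * a ^ (w + 1)) ≤ (e + 1) * (a - K₃) ^ (w + 1) :=
    mul_le_mul_of_nonneg_left c5 (by linarith)
  nlinarith [mul_nonneg (sub_nonneg.mpr heR) c3.le]

theorem mod_thm : MODStmt := by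
  intro p w _ _ K
  refine ⟨19 * (w + 1) * (K + (w + 3) * (K + 4)) + 1, ?_⟩
  intro a haa V _ G Q EA EB hPar hsz hms hEA hEB hcard h5
  classical
  have hAp : ∀ x ∈ EA, mod_pr Q x := by
    intro x hx
    obtain ⟨i, j, u, v, hij, hu, hv, _, he⟩ := hEA (mem_coe.2 hx)
    exact ⟨i, j, u, v, hij, hu, hv, he⟩
  have hBp : ∀ x ∈ EB, mod_pr Q x := by
    intro x hx
    obtain ⟨i, j, u, v, hij, hu, hv, _, he⟩ := hEB (mem_coe.2 hx)
    exact ⟨i, j, u, v, hij, hu, hv, he⟩
  have hAn : ∀ x y, s(x, y) ∈ EA → ¬ G.Adj x y := by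
    intro x y hx hadj
    obtain ⟨i, j, u, v, hij, hu, hv, hna, he⟩ := hEA (mem_coe.2 hx)
    rw [Sym2.eq_iff] at he
    rcases he with ⟨rfl, rfl⟩ | ⟨rfl, rfl⟩
    · exact hna hadj
    · exact hna hadj.symm
  have hBa : ∀ x y, s(x, y) ∈ EB → G.Adj x y := by
    intro x y hx
    obtain ⟨i, j, u, v, hij, hu, hv, hna, he⟩ := hEB (mem_coe.2 hx)
    rw [Sym2.eq_iff] at he
    rcases he with ⟨rfl, rfl⟩ | ⟨rfl, rfl⟩
    · exact hna
    · exact hna.symm
  -- every modification is a partition
  have hpar : ∀ A B : Finset (Sym2 V), A ⊆ EA → Par (md G A B) Q := by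
    intro A B hA
    refine ⟨hPar.dis, ?_⟩
    intro i u hu v hv hadj
    rw [mod_md_adj] at hadj
    rcases hadj.1 with h | h
    · exact hPar.ind i u hu v hv h
    · exact (mod_pr_other hPar.dis (hAp _ (hA h))).2.2.2 i hu hv
  refine ⟨hpar EA EB Subset.rfl, ?_, ?_⟩
  · intro u _
    have e1 := mod_dgE hPar.dis EA hAp u
    have e2 := mod_dgE hPar.dis EB hBp u
    have e3 : nb (md G EA EB) (un Q) u =
        (nb G (un Q) u \ (un Q).filter (fun v => s(u, v) ∈ EB)) ∪
          (un Q).filter (fun v => s(u, v) ∈ EA) := by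
      ext y
      rw [mem_nb, mod_md_adj, mem_union, mem_sdiff, mem_nb, mem_filter, mem_filter]
      constructor
      · rintro ⟨hy, h1, h2, _⟩
        rcases h1 with h1 | h1
        · exact Or.inl ⟨⟨hy, h1⟩, fun h => h2 h.2⟩
        · exact Or.inr ⟨hy, h1⟩
      · rintro (⟨⟨hy, h1⟩, h2⟩ | ⟨hy, h1⟩)
        · exact ⟨hy, Or.inl h1, fun h => h2 ⟨hy, h⟩, h1.ne⟩
        · exact ⟨hy, Or.inr h1, fun h => hAn u y h1 (hBa u y h),
            (mod_pr_other hPar.dis (hAp _ h1)).2.2.1⟩
    have e4 : Disjoint (nb G (un Q) u \ (un Q).filter (fun v => s(u, v) ∈ EB))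
        ((un Q).filter (fun v => s(u, v) ∈ EA)) := by
      rw [Finset.disjoint_left]
      intro y hy hy'
      rw [mem_sdiff, mem_nb] at hy
      rw [mem_filter] at hy'
      exact hAn u y hy'.2 hy.1.2
    have e5 : (un Q).filter (fun v => s(u, v) ∈ EB) ⊆ nb G (un Q) u := by
      intro y hy
      rw [mem_filter] at hy
      rw [mem_nb]
      exact ⟨hy.1, hBa u y hy.2⟩
    have e6 := card_sdiff_add_card_eq_card e5
    rw [e3, card_union_of_disjoint e4]
    omega
  · have hEB4 : EB.card ≤ 4 := by omega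
    -- removing edges
    have hrem : ∀ B : Finset (Sym2 V), B ⊆ EB →
        kc G (un Q) (w + 3) ≤ kc (md G ∅ B) (un Q) (w + 3) +
          B.card * ((p + 2).choose (w + 1) * (a + K) ^ (w + 1)) := by
      intro B
      induction B using Finset.induction_on with
      | empty =>
        intro _
        rw [card_empty, zero_mul, add_zero]
        apply le_of_eq
        apply mod_kc_congr
        intro x _ y _ hxy
        rw [mod_md_adj]
        constructor
        · intro h
          exact ⟨Or.inl h, notMem_empty _, hxy⟩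
        · rintro ⟨h | h, _⟩
          · exact h
          · exact absurd h (notMem_empty _)
      | insert x B hx ih =>
        intro hB
        have h1 := ih (fun y hy => hB (mem_insert_of_mem hy))
        have hxB : x ∈ EB := hB (mem_insert_self _ _)
        obtain ⟨i, j, u, v, hij, hu, hv, hadj, he⟩ := hEB (mem_coe.2 hxB)
        subst he
        have huU : u ∈ un Q := mem_biUnion.2 ⟨i, mem_univ _, hu⟩
        have hvU : v ∈ un Q := mem_biUnion.2 ⟨j, mem_univ _, hv⟩
        have h2 := mod_one (H := md G ∅ (insert s(u, v) B)) (H' := md G ∅ B) huU hvU (by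
          rw [mod_md_adj]
          exact ⟨Or.inl hadj, hx, hadj.ne⟩) (by
          rw [mod_md_adj]
          rintro ⟨_, h, _⟩
          exact h (mem_insert_self _ _)) (by
          intro y z hyz
          rw [mod_md_adj, mod_md_adj, mem_insert]
          tauto) (w + 1)
        have h3 := mod_cn_upper (w := w) (hpar ∅ (insert s(u, v) B) (empty_subset _))
          (fun j => (hsz j).2) hij hu hv
        rw [card_insert_of_notMem hx]
        have h4 : (B.card + 1) * ((p + 2).choose (w + 1) * (a + K) ^ (w + 1)) =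
            B.card * ((p + 2).choose (w + 1) * (a + K) ^ (w + 1)) +
            (p + 2).choose (w + 1) * (a + K) ^ (w + 1) := by ring
        have h5 : w + 1 + 2 = w + 3 := rfl
        rw [h5] at h2
        rw [h4]
        omega
    -- adding edges
    have hadd : ∀ A : Finset (Sym2 V), A ⊆ EA →
        kc (md G ∅ EB) (un Q) (w + 3) +
          A.card * ((p + 2).choose (w + 1) * (a - K - (w + 3) * (K + 4)) ^ (w + 1)) ≤
        kc (md G A EB) (un Q) (w + 3) := by
      intro A
      induction A using Finset.induction_on with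
      | empty =>
        intro _
        rw [card_empty, zero_mul, add_zero]
      | insert x A hx ih =>
        intro hA
        have hAs : A ⊆ EA := fun y hy => hA (mem_insert_of_mem hy)
        have h1 := ih hAs
        have hxA : x ∈ EA := hA (mem_insert_self _ _)
        obtain ⟨i, j, u, v, hij, hu, hv, hadj, he⟩ := hEA (mem_coe.2 hxA)
        subst he
        have huU : u ∈ un Q := mem_biUnion.2 ⟨i, mem_univ _, hu⟩
        have hvU : v ∈ un Q := mem_biUnion.2 ⟨j, mem_univ _, hv⟩
        have hne := (mod_pr_other hPar.dis (hAp _ hxA)).2.2.1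
        have h2 := mod_one (H := md G A EB) (H' := md G (insert s(u, v) A) EB) huU hvU (by
          rw [mod_md_adj]
          exact ⟨Or.inr (mem_insert_self _ _), fun h => hadj (hBa u v h), hne⟩) (by
          rw [mod_md_adj]
          rintro ⟨h | h, _, _⟩
          · exact hadj h
          · exact hx h) (by
          intro y z hyz
          rw [mod_md_adj, mod_md_adj, mem_insert]
          tauto) (w + 1)
        have h3 := mod_cn_lower (w := w) (L := a - K) (K₂ := K + 4) (hpar A EB hAs)
          (fun j => by have := (hsz j).1; omega) (by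
          intro l z hz k hkl
          have r1 : (non (md G A EB) (Q k) z).card ≤
              (non G (Q k) z).card + ((Q k).filter (fun y => s(z, y) ∈ EB)).card := by
            refine le_trans (card_le_card ?_) (card_union_le _ _)
            intro y hy
            rw [mod_mem_non, mod_md_adj] at hy
            rw [mem_union, mod_mem_non, mem_filter]
            by_cases c1 : G.Adj z y
            · right
              refine ⟨hy.1, ?_⟩
              by_contra c2
              exact hy.2 ⟨Or.inl c1, c2, c1.ne⟩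
            · exact Or.inl ⟨hy.1, c1⟩
          have r2 := mod_few EB (Q k) z
          have r3 : (non G (Q k) z).card ≤ ∑ k ∈ univ.erase l, (non G (Q k) z).card :=
            single_le_sum (f := fun k => (non G (Q k) z).card) (fun _ _ => Nat.zero_le _)
              (mem_erase.2 ⟨hkl, mem_univ _⟩)
          have r4 := hms l z hz
          omega) hij hu hv
        rw [card_insert_of_notMem hx]
        have h4 : (A.card + 1) *
              ((p + 2).choose (w + 1) * (a - K - (w + 3) * (K + 4)) ^ (w + 1)) =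
            A.card * ((p + 2).choose (w + 1) * (a - K - (w + 3) * (K + 4)) ^ (w + 1)) +
            (p + 2).choose (w + 1) * (a - K - (w + 3) * (K + 4)) ^ (w + 1) := by ring
        have h5 : w + 1 + 2 = w + 3 := rfl
        rw [h5] at h2
        rw [h4]
        omega
    have t1 := hrem EB Subset.rfl
    have t2 := hadd EA Subset.rfl
    rw [hcard] at t2
    obtain ⟨K₃, hK3⟩ : ∃ K₃ : ℕ, K₃ = K + (w + 3) * (K + 4) := ⟨_, rfl⟩
    have hsub : a - K - (w + 3) * (K + 4) = a - K₃ := by
      rw [hK3, Nat.sub_sub]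
    rw [hsub] at t2
    have haK : 19 * (w + 1) * K₃ + 1 ≤ a := by
      rw [hK3]
      exact haa
    have haR : 19 * ((w : ℝ) + 1) * K₃ + 1 ≤ a := by exact_mod_cast haK
    have haK3 : K₃ ≤ a := by
      have : K₃ ≤ 19 * (w + 1) * K₃ := Nat.le_mul_of_pos_left _ (by positivity)
      omega
    have t3 := mod_num w EB.card K K₃ a hEB4 (by omega) haR
    have s1 : (kc G (un Q) (w + 3) : ℝ) ≤ kc (md G ∅ EB) (un Q) (w + 3) +
          EB.card * (((p + 2).choose (w + 1) : ℝ) * ((a : ℝ) + K) ^ (w + 1)) := by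
      exact_mod_cast t1
    have s2 : (kc (md G ∅ EB) (un Q) (w + 3) : ℝ) +
          ((EB.card : ℝ) + 1) * (((p + 2).choose (w + 1) : ℝ) * ((a : ℝ) - K₃) ^ (w + 1)) ≤
        kc (md G EA EB) (un Q) (w + 3) := by
      have s3 : (((kc (md G ∅ EB) (un Q) (w + 3) +
          (EB.card + 1) * ((p + 2).choose (w + 1) * (a - K₃) ^ (w + 1)) : ℕ)) : ℝ) ≤
        ((kc (md G EA EB) (un Q) (w + 3) : ℕ) : ℝ) := by exact_mod_cast t2
      push_cast [Nat.cast_sub haK3] at s3
      exact s3
    have hc0 : (0 : ℝ) ≤ ((p + 2).choose (w + 1) : ℝ) := Nat.cast_nonneg _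
    have s4 := mul_le_mul_of_nonneg_left t3 hc0
    unfold c1
    linarith

end Pool.IA7
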